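import Mathlib

/-!
# Boolean functions with `2 ^ (spar / 2)` Mobius patterns

The function is the decision list `if ¬ x₁ then y₁ else if ¬ x₂ then y₂ else …`, that is
`f(x, y) = ∑ₐ x₁ ⋯ xₐ₋₁ (1 - xₐ) yₐ`.
-/

set_option autoImplicit false

namespace Pool.Agent.Results.MP_e3e9ef_lc.LinearPatterns

open Finset Filter

/-- `AND_S(x) = ∏_{i ∈ S} x_i` as a real number (`AND_∅ = 1`). -/
def AND {n : ℕ} (S : Finset (Fin n)) (x : Fin n → Bool) : ℝ := ∏ i ∈ S, if x i then 1 else 0

/-- The indicator vector of a set. -/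
def ind {n : ℕ} (S : Finset (Fin n)) : Fin n → Bool := fun i => decide (i ∈ S)

lemma AND_eq {n : ℕ} (S : Finset (Fin n)) (x : Fin n → Bool) :
    AND S x = if ∀ i ∈ S, x i = true then 1 else 0 := by
  unfold AND
  rw [Finset.prod_ite_zero]
  simp

lemma AND_ind {n : ℕ} (S T : Finset (Fin n)) : AND S (ind T) = if S ⊆ T then 1 else 0 := by
  rw [AND_eq]
  simp only [ind, decide_eq_true_eq]
  by_cases h : S ⊆ T
  · rw [if_pos h, if_pos]
    exact fun i hi => h hi
  · rw [if_neg h, if_neg]
    exact fun h' => h (fun i hi => h' i hi)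

/-- The linear map which evaluates a combination of the functions `AND_S`. -/
noncomputable def ev (n : ℕ) : (Finset (Fin n) → ℝ) →ₗ[ℝ] ((Fin n → Bool) → ℝ) where
  toFun c := fun x => ∑ S, c S * AND S x
  map_add' := by
    intro c d
    funext x
    simp [add_mul, Finset.sum_add_distrib]
  map_smul' := by
    intro r c
    funext x
    simp [Finset.mul_sum, mul_assoc]

lemma ev_injective (n : ℕ) : Function.Injective (ev n) := by
  rw [← LinearMap.ker_eq_bot, LinearMap.ker_eq_bot']
  intro c hc
  funext S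
  induction S using Finset.strongInduction with
  | H S ih =>
    have h1 := congrFun hc (ind S)
    simp only [ev, LinearMap.coe_mk, AddHom.coe_mk, Pi.zero_apply, AND_ind] at h1
    rw [Finset.sum_eq_single S] at h1
    · simpa using h1
    · intro T _ hT
      by_cases h : T ⊆ S
      · rw [ih T (lt_of_le_of_ne h hT)]
        simp
      · simp [h]
    · intro h
      exact absurd (Finset.mem_univ S) h

/-- Every real function on `{0,1}^n` has a unique representation `∑_S c_S AND_S`. -/
theorem existsUnique_mobius {n : ℕ} (g : (Fin n → Bool) → ℝ) :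
    ∃! c : Finset (Fin n) → ℝ, ∀ x, g x = ∑ S, c S * AND S x := by
  have h1 : Function.Surjective (ev n) := by
    have hf : Module.finrank ℝ (Finset (Fin n) → ℝ) =
        Module.finrank ℝ ((Fin n → Bool) → ℝ) := by simp
    exact (LinearMap.injective_iff_surjective_of_finrank_eq_finrank hf).1 (ev_injective n)
  obtain ⟨c, hc⟩ := h1 g
  refine ⟨c, fun x => (congrFun hc x).symm, fun d hd => ?_⟩
  apply ev_injective n
  rw [hc]
  funext x
  exact (hd x).symm

/-- The Mobius coefficients of `f`: the unique real numbers `c_S` with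
`f(x) = ∑_{S ⊆ [n]} c_S AND_S(x)` for all `x`. -/
noncomputable def coeff {n : ℕ} (f : (Fin n → Bool) → Bool) : Finset (Fin n) → ℝ :=
  Classical.choose (existsUnique_mobius (fun x => if f x then (1 : ℝ) else 0)).exists

/-- The Mobius support of `f`. -/
def support {n : ℕ} (f : (Fin n → Bool) → Bool) : Set (Finset (Fin n)) := {S | coeff f S ≠ 0}

/-- The Mobius sparsity of `f`. -/
noncomputable def spar {n : ℕ} (f : (Fin n → Bool) → Bool) : ℕ := (support f).ncard

/-- The Mobius pattern of `x` with respect to `f`: the vector of the values `AND_S(x)` for all `S` in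
the Mobius support of `f`. -/
def pattern {n : ℕ} (f : (Fin n → Bool) → Bool) (x : Fin n → Bool) : support f → ℝ :=
  fun S => AND S.1 x

/-- The Mobius pattern complexity of `f`: the number of distinct Mobius patterns. -/
noncomputable def Pat {n : ℕ} (f : (Fin n → Bool) → Bool) : ℕ := (Set.range (pattern f)).ncard

lemma coeff_spec {n : ℕ} (f : (Fin n → Bool) → Bool) (x : Fin n → Bool) :
    (if f x then (1 : ℝ) else 0) = ∑ S, coeff f S * AND S x :=
  Classical.choose_spec (existsUnique_mobius (fun x => if f x then (1 : ℝ) else 0)).exists x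

lemma coeff_unique {n : ℕ} (f : (Fin n → Bool) → Bool) (c : Finset (Fin n) → ℝ)
    (hc : ∀ x, (if f x then (1 : ℝ) else 0) = ∑ S, c S * AND S x) : coeff f = c :=
  (existsUnique_mobius (fun x => if f x then (1 : ℝ) else 0)).unique (coeff_spec f) hc

/-! ### The decision list -/

section

variable (m : ℕ)

/-- the variable `x_a` -/
def vx (a : Fin m) : Fin (m + m) := Fin.castAdd m a

/-- the variable `y_a` -/
def vy (a : Fin m) : Fin (m + m) := Fin.natAdd m a

lemma vx_ne_vy (a b : Fin m) : vx m a ≠ vy m b := by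
  intro h
  have := congrArg Fin.val h
  simp only [vx, vy, Fin.val_castAdd, Fin.val_natAdd] at this
  omega

lemma vx_inj {a b : Fin m} (h : vx m a = vx m b) : a = b := Fin.castAdd_injective m m h

lemma vy_inj {a b : Fin m} (h : vy m a = vy m b) : a = b := by
  have := congrArg Fin.val h
  simp only [vy, Fin.val_natAdd] at this
  exact Fin.ext (by omega)

/-- The decision list `if ¬ x₁ then y₁ else if ¬ x₂ then y₂ else … else 0`: its value is `1` if and
only if for the first `a` with `x_a = 0` one has `y_a = 1`. -/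
def dlist (z : Fin (m + m) → Bool) : Bool :=
  decide (∃ a : Fin m, (∀ b, b < a → z (vx m b) = true) ∧ z (vx m a) = false ∧ z (vy m a) = true)

/-- `{x_1, …, x_{a-1}, y_a}` -/
def Sa (a : Fin m) : Finset (Fin (m + m)) := insert (vy m a) ((univ.filter (· < a)).image (vx m))

/-- `{x_1, …, x_a, y_a}` -/
def Ta (a : Fin m) : Finset (Fin (m + m)) := insert (vy m a) ((univ.filter (· ≤ a)).image (vx m))

lemma vy_mem_Sa {a b : Fin m} : vy m b ∈ Sa m a ↔ b = a := by
  unfold Sa
  simp only [mem_insert, mem_image, mem_filter, mem_univ, true_and]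
  constructor
  · rintro (h | ⟨c, _, h⟩)
    · exact vy_inj m h
    · exact absurd h (vx_ne_vy m c b)
  · rintro rfl
    exact Or.inl rfl

lemma vy_mem_Ta {a b : Fin m} : vy m b ∈ Ta m a ↔ b = a := by
  unfold Ta
  simp only [mem_insert, mem_image, mem_filter, mem_univ, true_and]
  constructor
  · rintro (h | ⟨c, _, h⟩)
    · exact vy_inj m h
    · exact absurd h (vx_ne_vy m c b)
  · rintro rfl
    exact Or.inl rfl

lemma vx_mem_Sa {a b : Fin m} : vx m b ∈ Sa m a ↔ b < a := by
  unfold Sa
  simp only [mem_insert, mem_image, mem_filter, mem_univ, true_and]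
  constructor
  · rintro (h | ⟨c, hc, h⟩)
    · exact absurd h (vx_ne_vy m b a)
    · rw [← vx_inj m h]; exact hc
  · intro h
    exact Or.inr ⟨b, h, rfl⟩

lemma vx_mem_Ta {a b : Fin m} : vx m b ∈ Ta m a ↔ b ≤ a := by
  unfold Ta
  simp only [mem_insert, mem_image, mem_filter, mem_univ, true_and]
  constructor
  · rintro (h | ⟨c, hc, h⟩)
    · exact absurd h (vx_ne_vy m b a)
    · rw [← vx_inj m h]; exact hc
  · intro h
    exact Or.inr ⟨b, h, rfl⟩

lemma Sa_inj : Function.Injective (Sa m) := by
  intro a b h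
  have h1 : vy m a ∈ Sa m b := by
    rw [← h]
    exact (vy_mem_Sa m).2 rfl
  exact (vy_mem_Sa m).1 h1

lemma Ta_inj : Function.Injective (Ta m) := by
  intro a b h
  have h1 : vy m a ∈ Ta m b := by
    rw [← h]
    exact (vy_mem_Ta m).2 rfl
  exact (vy_mem_Ta m).1 h1

lemma Sa_ne_Ta (a b : Fin m) : Sa m a ≠ Ta m b := by
  intro h
  have h1 : vy m a ∈ Ta m b := by
    rw [← h]
    exact (vy_mem_Sa m).2 rfl
  have h2 : a = b := (vy_mem_Ta m).1 h1
  have h3 : vx m b ∈ Sa m a := by
    rw [h]
    exact (vx_mem_Ta m).2 le_rfl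
  have h4 := (vx_mem_Sa m).1 h3
  rw [h2] at h4
  exact lt_irrefl _ h4

/-- The coefficients of the decision list. -/
def co (S : Finset (Fin (m + m))) : ℝ :=
  ∑ a : Fin m, ((if S = Sa m a then 1 else 0) - (if S = Ta m a then 1 else 0))

lemma co_Sa (a : Fin m) : co m (Sa m a) = 1 := by
  unfold co
  rw [Finset.sum_eq_single a]
  · simp [Sa_ne_Ta]
  · intro b _ hb
    have : Sa m a ≠ Sa m b := fun h => hb (Sa_inj m h).symm
    simp [this, Sa_ne_Ta]
  · intro h
    exact absurd (Finset.mem_univ a) h

lemma co_Ta (a : Fin m) : co m (Ta m a) = -1 := by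
  unfold co
  rw [Finset.sum_eq_single a]
  · simp [(Sa_ne_Ta m a a).symm]
  · intro b _ hb
    have : Ta m a ≠ Ta m b := fun h => hb (Ta_inj m h).symm
    simp [this, (Sa_ne_Ta m b a).symm]
  · intro h
    exact absurd (Finset.mem_univ a) h

lemma co_zero (S : Finset (Fin (m + m))) (h1 : ∀ a, S ≠ Sa m a) (h2 : ∀ a, S ≠ Ta m a) :
    co m S = 0 := by
  unfold co
  apply Finset.sum_eq_zero
  intro a _
  simp [h1 a, h2 a]

lemma AND_Sa (a : Fin m) (z : Fin (m + m) → Bool) : AND (Sa m a) z =
    if (∀ b, b < a → z (vx m b) = true) ∧ z (vy m a) = true then 1 else 0 := by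
  rw [AND_eq]
  congr 1
  apply propext
  unfold Sa
  simp only [mem_insert, mem_image, mem_filter, mem_univ, true_and, forall_eq_or_imp,
    forall_exists_index, and_imp, forall_apply_eq_imp_iff₂]
  exact and_comm

lemma AND_Ta (a : Fin m) (z : Fin (m + m) → Bool) : AND (Ta m a) z =
    if (∀ b, b ≤ a → z (vx m b) = true) ∧ z (vy m a) = true then 1 else 0 := by
  rw [AND_eq]
  congr 1
  apply propext
  unfold Ta
  simp only [mem_insert, mem_image, mem_filter, mem_univ, true_and, forall_eq_or_imp,
    forall_exists_index, and_imp, forall_apply_eq_imp_iff₂]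
  exact and_comm

lemma diff_eq (a : Fin m) (z : Fin (m + m) → Bool) : AND (Sa m a) z - AND (Ta m a) z =
    if (∀ b, b < a → z (vx m b) = true) ∧ z (vx m a) = false ∧ z (vy m a) = true
      then 1 else 0 := by
  rw [AND_Sa, AND_Ta]
  have hle : (∀ b, b ≤ a → z (vx m b) = true) ↔
      (∀ b, b < a → z (vx m b) = true) ∧ z (vx m a) = true := by
    constructor
    · intro h
      exact ⟨fun b hb => h b hb.le, h a le_rfl⟩
    · rintro ⟨h1, h2⟩ b hb
      rcases hb.lt_or_eq with h | h
      · exact h1 b h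
      · rw [h]; exact h2
  simp only [hle]
  by_cases h1 : ∀ b, b < a → z (vx m b) = true <;> by_cases h2 : z (vx m a) = true <;>
    by_cases h3 : z (vy m a) = true <;> simp [h1, h2, h3]

lemma dlist_expansion (z : Fin (m + m) → Bool) :
    (if dlist m z then (1 : ℝ) else 0) = ∑ S, co m S * AND S z := by
  have h1 : ∑ S, co m S * AND S z = ∑ a : Fin m, (AND (Sa m a) z - AND (Ta m a) z) := by
    unfold co
    simp_rw [Finset.sum_mul, sub_mul]
    rw [Finset.sum_comm]
    apply Finset.sum_congr rfl
    intro a _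
    rw [Finset.sum_sub_distrib]
    simp
  rw [h1]
  simp_rw [diff_eq]
  unfold dlist
  by_cases h : ∃ a : Fin m, (∀ b, b < a → z (vx m b) = true) ∧ z (vx m a) = false ∧
      z (vy m a) = true
  · obtain ⟨a, ha1, ha2, ha3⟩ := h
    have hd : decide (∃ a : Fin m, (∀ b, b < a → z (vx m b) = true) ∧ z (vx m a) = false ∧
        z (vy m a) = true) = true := decide_eq_true ⟨a, ha1, ha2, ha3⟩
    rw [hd, Finset.sum_eq_single a]
    · rw [if_pos rfl, if_pos]
      exact ⟨ha1, ha2, ha3⟩
    · intro b _ hb
      apply if_neg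
      rintro ⟨hb1, hb2, -⟩
      rcases lt_trichotomy a b with h | h | h
      · rw [hb1 a h] at ha2
        exact absurd ha2 (by simp)
      · exact hb h.symm
      · rw [ha1 b h] at hb2
        exact absurd hb2 (by simp)
    · intro h
      exact absurd (Finset.mem_univ a) h
  · rw [Finset.sum_eq_zero]
    · simp [h]
    · intro a _
      apply if_neg
      intro ha
      exact h ⟨a, ha⟩

lemma coeff_dlist : coeff (dlist m) = co m := coeff_unique _ _ (dlist_expansion m)

lemma support_dlist : support (dlist m) = ((univ.image (Sa m) ∪ univ.image (Ta m) :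
    Finset (Finset (Fin (m + m)))) : Set (Finset (Fin (m + m)))) := by
  ext S
  unfold support
  simp only [coeff_dlist, Set.mem_ofPred_eq, coe_union, coe_image, coe_univ, Set.image_univ,
    Set.mem_union, Set.mem_range]
  constructor
  · intro h
    by_contra hcon
    push Not at hcon
    exact h (co_zero m S (fun a ha => hcon.1 a ha.symm) (fun a ha => hcon.2 a ha.symm))
  · rintro (⟨a, rfl⟩ | ⟨a, rfl⟩)
    · rw [co_Sa]; norm_num
    · rw [co_Ta]; norm_num

lemma spar_dlist : spar (dlist m) = 2 * m := by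
  unfold spar
  rw [support_dlist, Set.ncard_coe_finset, Finset.card_union_of_disjoint,
    Finset.card_image_of_injective _ (Sa_inj m), Finset.card_image_of_injective _ (Ta_inj m)]
  · simp
    ring
  · rw [Finset.disjoint_left]
    intro S h1 h2
    obtain ⟨a, _, ha⟩ := Finset.mem_image.1 h1
    obtain ⟨b, _, hb⟩ := Finset.mem_image.1 h2
    exact Sa_ne_Ta m a b (ha.trans hb.symm)

/-- all `x_a = 1` and `y` arbitrary -/
def inp (y : Fin m → Bool) : Fin (m + m) → Bool := Fin.append (fun _ => true) y

lemma pat_dlist : 2 ^ m ≤ Pat (dlist m) := by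
  unfold Pat
  have hinj : Function.Injective (fun y : Fin m → Bool => pattern (dlist m) (inp m y)) := by
    intro y y' h
    funext a
    have hmem : Sa m a ∈ support (dlist m) := by
      rw [support_dlist]
      simp
    have h1 := congrFun h ⟨Sa m a, hmem⟩
    simp only [pattern, AND_Sa] at h1
    have hx : ∀ (y : Fin m → Bool) (b : Fin m), inp m y (vx m b) = true := by
      intro y b
      exact Fin.append_left _ _ _
    have hy : ∀ (y : Fin m → Bool) (b : Fin m), inp m y (vy m b) = y b := by
      intro y b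
      exact Fin.append_right _ _ _
    simp only [hx, hy, implies_true, true_and] at h1
    cases h2 : y a <;> cases h3 : y' a <;> simp [h2, h3] at h1 ⊢
  have h2 : (Set.range (fun y : Fin m → Bool => pattern (dlist m) (inp m y))).ncard = 2 ^ m := by
    rw [← Set.image_univ, Set.ncard_image_of_injective _ hinj, Set.ncard_univ]
    simp
  rw [← h2]
  apply Set.ncard_le_ncard
  · rintro p ⟨y, rfl⟩
    exact ⟨inp m y, rfl⟩
  · exact Set.finite_range _

end

/-- **The Mobius pattern complexity is not bounded by `2 ^ (C spar^(1-δ))`.**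
(1) For every `m` there is a Boolean function on `2 m` variables with Mobius sparsity exactly `2 m`
and at least `2 ^ m = 2 ^ (spar / 2)` Mobius patterns.
(2) For all `δ, C > 0` there is a Boolean function `f` with
`log₂ Pat(f) > C spar(f) ^ (1 - δ)` (the negated form of the question). -/
theorem result :
    (∀ m : ℕ, ∃ f : (Fin (m + m) → Bool) → Bool, spar f = 2 * m ∧ 2 ^ m ≤ Pat f) ∧
    (∀ δ C : ℝ, 0 < δ → 0 < C → ∃ (n : ℕ) (f : (Fin n → Bool) → Bool),
      C * (spar f : ℝ) ^ (1 - δ) < Real.logb 2 (Pat f)) := by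
  refine ⟨fun m => ⟨dlist m, spar_dlist m, pat_dlist m⟩, ?_⟩
  intro δ C hδ hC
  have h1 : Tendsto (fun m : ℕ => (m : ℝ) ^ δ) atTop atTop :=
    (tendsto_rpow_atTop hδ).comp tendsto_natCast_atTop_atTop
  obtain ⟨m, hm1, hm2⟩ := ((h1.eventually_gt_atTop (C * 2 ^ (1 - δ))).and
    (eventually_ge_atTop 1)).exists
  refine ⟨m + m, dlist m, ?_⟩
  have hm0 : (0 : ℝ) < m := by
    have : 0 < m := by omega
    exact_mod_cast this
  have h2 : (m : ℝ) ≤ Real.logb 2 (Pat (dlist m)) := by
    rw [Real.le_logb_iff_rpow_le (by norm_num), Real.rpow_natCast]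
    · exact_mod_cast pat_dlist m
    · have : 0 < Pat (dlist m) := lt_of_lt_of_le (by positivity) (pat_dlist m)
      exact_mod_cast this
  refine lt_of_lt_of_le ?_ h2
  rw [spar_dlist]
  push_cast
  rw [Real.mul_rpow (by norm_num) hm0.le]
  have h3 : (m : ℝ) = (m : ℝ) ^ δ * (m : ℝ) ^ (1 - δ) := by
    rw [← Real.rpow_add hm0]
    simp
  have h4 : 0 < (m : ℝ) ^ (1 - δ) := by positivity
  calc C * (2 ^ (1 - δ) * (m : ℝ) ^ (1 - δ)) = (C * 2 ^ (1 - δ)) * (m : ℝ) ^ (1 - δ) := by ring
    _ < (m : ℝ) ^ δ * (m : ℝ) ^ (1 - δ) := by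
        apply mul_lt_mul_of_pos_right hm1 h4
    _ = m := h3.symm

end Pool.Agent.Results.MP_e3e9ef_lc.LinearPatterns
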